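import Mathlib
import Pool.Agent.H32.IndF

open Set
open Cardinal hiding univ

namespace Pool.Agent.Results.MP_ea2126_lc.OmegaOneChain

def IsIdeal (J : Set (Set ℕ)) : Prop :=
  ∅ ∈ J ∧ univ ∉ J ∧ (∀ A ∈ J, ∀ B ∈ J, A ∪ B ∈ J) ∧ ∀ A ∈ J, ∀ B, B ⊆ A → B ∈ J

theorem result : ∃ J : (ℵ₁ : Cardinal.{0}).ord.ToType → Set (Set ℕ), (∀ α, IsIdeal (J α)) ∧
    (∀ α β, α < β → J α ⊂ J β) ∧ Maximal IsIdeal (⋃ α, J α) := by
  obtain ⟨U, G, p, X, h1, h2, h3, h4, h5, -⟩ := Pool.Agent.H32.IndF.main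
  have hU : ∀ A, A ∈ (⋃ α, {A : Set ℕ | Aᶜ ∈ G α}) ↔ Aᶜ ∈ U := fun A => by
    simp only [mem_iUnion, mem_ofPred_eq, h5]
  refine ⟨fun α => {A | Aᶜ ∈ G α}, fun α => ⟨by simpa using (h1 α).1, fun h => ?_,
    fun A hA B hB => ?_, fun A hA B h => (h1 α).2.1 _ hA _ (compl_subset_compl.2 h)⟩,
    fun α β h => ⟨fun A hA => h2 α β h.le hA, fun h' => h4 α ?_⟩, ⟨?_, fun h => ?_, ?_, ?_⟩, ?_⟩
  · simpa using (h5 _).2 ⟨α, h⟩
  · show (A ∪ B)ᶜ ∈ G α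
    rw [compl_union]
    exact (h1 α).2.2 _ hA _ hB
  · simpa using h' (a := (X α)ᶜ) (by simpa using h3 α β h)
  · rw [hU, compl_empty]
    exact Filter.univ_mem
  · simpa using (hU _).1 h
  · intro A hA B hB
    rw [hU] at *
    rw [compl_union]
    exact Filter.inter_mem hA hB
  · intro A hA B h
    rw [hU] at *
    exact Filter.mem_of_superset hA (compl_subset_compl.2 h)
  · intro J hJ h A hA
    rw [hU]
    by_contra hc
    refine hJ.2.1 (union_compl_self A ▸ hJ.2.2.1 A hA _ (h ((hU _).2 ?_)))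
    rw [compl_compl]
    exact Ultrafilter.compl_notMem_iff.1 hc

end Pool.Agent.Results.MP_ea2126_lc.OmegaOneChain
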